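import Pool.Agent.H883R3.Tree

/-!
Kurepa's tree: strictly increasing maps from countable ordinals to the rationals with range
bounded above.
-/

namespace Pool.Agent.H883R3

open Ordinal

/-- The underlying set of the tree: strictly increasing maps from a countable ordinal `len` to the
rationals, with range bounded above. -/
structure SigmaQ : Type 1 where
  len : Ordinal.{0}
  len_lt : len < ω₁
  toFun : Set.Iio len → ℚ
  strictMono : StrictMono toFun
  bdd : BddAbove (Set.range toFun)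

namespace SigmaQ

theorem ext' {s t : SigmaQ} (h : s.len = t.len)
    (h' : ∀ x (hx : x < s.len), s.toFun ⟨x, hx⟩ = t.toFun ⟨x, h ▸ hx⟩) : s = t := by
  obtain ⟨ls, hls, fs, ms, bs⟩ := s
  obtain ⟨lt, hlt, ft, mt, bt⟩ := t
  dsimp only at h
  subst h
  have : fs = ft := by
    funext x
    exact h' x.1 x.2
  subst this
  rfl

/-- The order: extension of functions. -/
instance : PartialOrder SigmaQ where
  le s t := ∃ h : s.len ≤ t.len, ∀ x (hx : x < s.len),
    t.toFun ⟨x, lt_of_lt_of_le hx h⟩ = s.toFun ⟨x, hx⟩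
  le_refl s := ⟨le_rfl, fun _ _ => rfl⟩
  le_trans := by
    rintro a b c ⟨h1, h2⟩ ⟨h3, h4⟩
    exact ⟨h1.trans h3, fun x hx => (h4 x (lt_of_lt_of_le hx h1)).trans (h2 x hx)⟩
  le_antisymm := by
    rintro a b ⟨h1, h2⟩ ⟨h3, h4⟩
    exact ext' (le_antisymm h1 h3) (fun x hx => (h2 x hx).symm)

theorem le_def {s t : SigmaQ} : s ≤ t ↔ ∃ h : s.len ≤ t.len, ∀ x (hx : x < s.len),
    t.toFun ⟨x, lt_of_lt_of_le hx h⟩ = s.toFun ⟨x, hx⟩ := Iff.rfl

theorem lt_iff {s t : SigmaQ} : s < t ↔ s ≤ t ∧ s.len < t.len := by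
  constructor
  · intro h
    refine ⟨h.le, lt_of_le_of_ne h.le.1 ?_⟩
    intro he
    apply h.ne
    exact ext' he (fun x hx => (h.le.2 x hx).symm)
  · rintro ⟨h1, h2⟩
    refine lt_of_le_of_ne h1 ?_
    rintro rfl
    exact lt_irrefl _ h2

/-- Restriction to an initial segment. -/
def restrict (t : SigmaQ) (β : Ordinal.{0}) (h : β ≤ t.len) : SigmaQ where
  len := β
  len_lt := lt_of_le_of_lt h t.len_lt
  toFun x := t.toFun ⟨x.1, lt_of_lt_of_le x.2 h⟩
  strictMono := fun _ _ hab => t.strictMono hab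
  bdd := by
    obtain ⟨r, hr⟩ := t.bdd
    refine ⟨r, ?_⟩
    rintro _ ⟨x, rfl⟩
    exact hr ⟨_, rfl⟩

theorem restrict_le (t : SigmaQ) (β : Ordinal.{0}) (h : β ≤ t.len) : t.restrict β h ≤ t :=
  ⟨h, fun _ _ => rfl⟩

theorem le_of_le_le {a b t : SigmaQ} (ha : a ≤ t) (hb : b ≤ t) (h : a.len ≤ b.len) : a ≤ b := by
  refine ⟨h, fun x hx => ?_⟩
  rw [← hb.2 x (lt_of_lt_of_le hx h), ← ha.2 x hx]

/-- The set of strict predecessors of `t` is isomorphic to the ordinal `t.len`. -/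
def iioIso (t : SigmaQ) :
    (fun a b : Set.Iio t => a < b) ≃r (fun a b : Set.Iio t.len => a < b) where
  toFun s := ⟨s.1.len, (lt_iff.1 s.2).2⟩
  invFun β := ⟨t.restrict β.1 β.2.le, lt_iff.2 ⟨t.restrict_le _ _, β.2⟩⟩
  left_inv := by
    rintro ⟨s, hs⟩
    apply Subtype.ext
    have hle : s.len ≤ t.len := (lt_iff.1 hs).2.le
    exact le_antisymm (le_of_le_le (t.restrict_le s.len hle) (le_of_lt hs) le_rfl)
      (le_of_le_le (le_of_lt hs) (t.restrict_le s.len hle) le_rfl)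
  right_inv := by
    rintro ⟨β, hβ⟩
    rfl
  map_rel_iff' := by
    rintro ⟨a, ha⟩ ⟨b, hb⟩
    change a.len < b.len ↔ a < b
    constructor
    · intro h
      exact lt_iff.2 ⟨le_of_le_le (le_of_lt ha) (le_of_lt hb) h.le, h⟩
    · intro h
      exact (lt_iff.1 h).2

instance : TreeOrder SigmaQ where
  wo t := (iioIso t).toRelEmbedding.isWellOrder

theorem ht_eq (t : SigmaQ) : ht t = Ordinal.lift.{1} t.len := by
  have := TreeOrder.wo t
  have h1 := (iioIso t).ordinalType_congr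
  have h2 := type_lt_Iio t.len
  unfold ht
  exact h1.trans h2

theorem mem_succs {s t : SigmaQ} : s ∈ Succs t ↔ t < s ∧ s.len = t.len + 1 := by
  change (t < s ∧ ht s = ht t + 1) ↔ _
  rw [ht_eq, ht_eq, show Ordinal.lift.{1} t.len + 1 = Ordinal.lift.{1} (t.len + 1) by simp,
    Ordinal.lift_inj]

/-- Append the rational `q` at the end of `t`. -/
noncomputable def snoc (t : SigmaQ) (q : ℚ) (hq : ∀ x, t.toFun x < q) : SigmaQ where
  len := t.len + 1
  len_lt := by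
    have h := (Cardinal.isSuccLimit_omega 1).succ_lt t.len_lt
    simpa [Order.succ_eq_add_one] using h
  toFun x := by
    classical
    exact if h : x.1 < t.len then t.toFun ⟨x.1, h⟩ else q
  strictMono := by
    classical
    intro a b hab
    by_cases hb : b.1 < t.len
    · have ha : a.1 < t.len := lt_trans hab hb
      simp only [ha, hb, dif_pos]
      exact t.strictMono hab
    · have hb' : b.1 = t.len := le_antisymm (Order.lt_add_one_iff.1 b.2) (not_lt.1 hb)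
      have ha : a.1 < t.len := lt_of_lt_of_eq hab hb'
      simp only [ha, hb, dif_pos, dif_neg, not_false_eq_true]
      exact hq _
  bdd := by
    classical
    refine ⟨q, ?_⟩
    rintro _ ⟨x, rfl⟩
    dsimp only
    split_ifs with h
    · exact (hq _).le
    · exact le_rfl

theorem snoc_apply_last (t : SigmaQ) (q : ℚ) (hq : ∀ x, t.toFun x < q)
    (h : t.len < (t.snoc q hq).len) : (t.snoc q hq).toFun ⟨t.len, h⟩ = q := by
  simp [snoc]

theorem le_snoc (t : SigmaQ) (q : ℚ) (hq : ∀ x, t.toFun x < q) : t ≤ t.snoc q hq := by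
  refine ⟨(lt_add_one t.len).le, fun x hx => ?_⟩
  simp [snoc, hx]

theorem snoc_le_bound (t : SigmaQ) (q : ℚ) (hq : ∀ x, t.toFun x < q) :
    ∀ x, (t.snoc q hq).toFun x ≤ q := by
  classical
  intro x
  by_cases h : x.1 < t.len
  · have : (t.snoc q hq).toFun x = t.toFun ⟨x.1, h⟩ := by simp [snoc, h]
    rw [this]; exact (hq _).le
  · have : (t.snoc q hq).toFun x = q := by simp [snoc, h]
    rw [this]

theorem snoc_mem_succs (t : SigmaQ) (q : ℚ) (hq : ∀ x, t.toFun x < q) :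
    t.snoc q hq ∈ Succs t :=
  mem_succs.2 ⟨lt_iff.2 ⟨t.le_snoc q hq, lt_add_one _⟩, rfl⟩

end SigmaQ

/-! ### A partition of the rationals into two dense pieces -/

/-- The triadic rationals. -/
def Triadic : Set ℚ := {q | ∃ (k : ℤ) (n : ℕ), q = (k : ℚ) / 3 ^ n}

theorem half_not_triadic {q : ℚ} (hq : q ∈ Triadic) : q + 1 / 2 ∉ Triadic := by
  rintro ⟨l, m, hl⟩
  obtain ⟨k, n, hk⟩ := hq
  rw [hk] at hl
  have h3n : (3 : ℚ) ^ n ≠ 0 := by positivity
  have h3m : (3 : ℚ) ^ m ≠ 0 := by positivity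
  have h1 : (3 : ℚ) ^ (n + m) = 2 * (l * 3 ^ n - k * 3 ^ m) := by
    field_simp at hl
    rw [pow_add]
    linear_combination hl
  have h2 : (3 : ℤ) ^ (n + m) = 2 * (l * 3 ^ n - k * 3 ^ m) := by exact_mod_cast h1
  have h3 : Odd ((3 : ℤ) ^ (n + m)) := Odd.pow (by decide)
  rw [h2] at h3
  exact (Int.not_odd_iff_even.2 (even_two_mul _)) h3

theorem triadic_dense {a b : ℚ} (h : a < b) : ∃ q ∈ Triadic, a < q ∧ q < b := by
  obtain ⟨n, hn⟩ := exists_nat_gt (1 / (b - a))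
  have hba : 0 < b - a := sub_pos.2 h
  have h3 : (n : ℚ) < 3 ^ n := by exact_mod_cast Nat.lt_pow_self (by norm_num)
  have hpos : (0 : ℚ) < 3 ^ n := by positivity
  have h4 : 1 < (b - a) * 3 ^ n := by
    have h5 : 1 / (b - a) < 3 ^ n := hn.trans h3
    rw [div_lt_iff₀ hba] at h5
    linarith
  refine ⟨((⌊a * 3 ^ n⌋ + 1 : ℤ) : ℚ) / 3 ^ n, ⟨_, n, rfl⟩, ?_, ?_⟩
  · rw [lt_div_iff₀ hpos]
    push_cast
    exact Int.lt_floor_add_one _
  · rw [div_lt_iff₀ hpos]
    push_cast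
    have := Int.floor_le (a * 3 ^ n)
    nlinarith

open Classical in
theorem exists_between_col (b : Bool) {r q : ℚ} (h : r < q) :
    ∃ x, r < x ∧ x < q ∧ decide (x ∈ Triadic) = b := by
  cases b
  · obtain ⟨x, hx, h1, h2⟩ := triadic_dense (a := r - 1 / 2) (b := q - 1 / 2) (by linarith)
    refine ⟨x + 1 / 2, by linarith, by linarith, ?_⟩
    simpa using half_not_triadic hx
  · obtain ⟨x, hx, h1, h2⟩ := triadic_dense h
    exact ⟨x, h1, h2, by simpa using hx⟩

open Classical in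
/-- The successor-partition: split the successors of `t` according to the last value. -/
noncomputable def triPartition : SuccPartition SigmaQ where
  part t b := {s | s ∈ Succs t ∧ ∃ h : t.len < s.len, decide (s.toFun ⟨t.len, h⟩ ∈ Triadic) = b}
  union_eq t := by
    ext s
    constructor
    · rintro (h | h) <;> exact h.1
    · intro h
      have hl : t.len < s.len := (SigmaQ.lt_iff.1 h.1).2
      by_cases hm : s.toFun ⟨t.len, hl⟩ ∈ Triadic
      · right; exact ⟨h, hl, by simpa using hm⟩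
      · left; exact ⟨h, hl, by simpa using hm⟩
  disj t := by
    rw [Set.disjoint_left]
    rintro s ⟨_, h1, h2⟩ ⟨_, h3, h4⟩
    rw [h2] at h4
    exact absurd h4 (by simp)

namespace SigmaQ

theorem exists_mem_part (t : SigmaQ) (b : Bool) {r q : ℚ} (hr : ∀ x, t.toFun x ≤ r) (hrq : r < q) :
    ∃ t' ∈ triPartition.part t b, ∃ r' < q, ∀ x, t'.toFun x ≤ r' := by
  classical
  obtain ⟨x, h1, h2, h3⟩ := exists_between_col b hrq
  have hq : ∀ y, t.toFun y < x := fun y => lt_of_le_of_lt (hr y) h1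
  refine ⟨t.snoc x hq, ⟨t.snoc_mem_succs x hq, lt_add_one t.len, ?_⟩, x, h2,
    t.snoc_le_bound x hq⟩
  have h4 := t.snoc_apply_last x hq (lt_add_one t.len)
  exact h4.symm ▸ h3

/-- The union of an increasing chain with bounded values. -/
theorem exists_union (t : ℕ → SigmaQ) (ht' : ∀ n, t n < t (n + 1)) (r : ℚ)
    (hr : ∀ n x, (t n).toFun x ≤ r) :
    ∃ u : SigmaQ, (∀ n, t n < u) ∧ (∀ s, s < u → ∃ n, s < t n) ∧
      (∀ n, ∀ q : ℚ, (∀ m, n ≤ m → ∀ x, (t m).toFun x ≤ q) → ∀ x, u.toFun x ≤ q) := by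
  classical
  have hmono : Monotone t := monotone_nat_of_le_succ (fun n => (ht' n).le)
  have hbdd : BddAbove (Set.range (fun n => (t n).len)) := Ordinal.bddAbove_of_small
  have hmem : ∀ x : Set.Iio (⨆ n, (t n).len), ∃ n, x.1 < (t n).len := by
    intro x
    exact Ordinal.lt_iSup_iff.1 x.2
  let N : Set.Iio (⨆ n, (t n).len) → ℕ := fun x => Classical.choose (hmem x)
  have hN : ∀ x, x.1 < (t (N x)).len := fun x => Classical.choose_spec (hmem x)
  have hcoh : ∀ (m n : ℕ) (x : Ordinal) (hm : x < (t m).len) (hn : x < (t n).len),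
      (t m).toFun ⟨x, hm⟩ = (t n).toFun ⟨x, hn⟩ := by
    intro m n x hm hn
    rcases le_total m n with h | h
    · exact ((hmono h).2 x hm).symm
    · exact (hmono h).2 x hn
  let u : SigmaQ :=
    { len := ⨆ n, (t n).len
      len_lt := Ordinal.iSup_lt_omega_one (fun n => (t n).len_lt)
      toFun := fun x => (t (N x)).toFun ⟨x.1, hN x⟩
      strictMono := by
        intro a b hab
        have hb : a.1 < (t (N b)).len := lt_trans hab (hN b)
        dsimp only
        rw [hcoh (N a) (N b) a.1 (hN a) hb]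
        exact (t (N b)).strictMono hab
      bdd := by
        refine ⟨r, ?_⟩
        rintro _ ⟨x, rfl⟩
        exact hr _ _ }
  have hle : ∀ n, t n ≤ u := by
    intro n
    refine ⟨le_ciSup hbdd n, fun x hx => ?_⟩
    exact hcoh _ _ _ _ _
  refine ⟨u, fun n => lt_of_lt_of_le (ht' n) (hle (n + 1)), ?_, ?_⟩
  · intro s hs
    obtain ⟨n, hn⟩ := Ordinal.lt_iSup_iff.1 (lt_iff.1 hs).2
    exact ⟨n, lt_iff.2 ⟨le_of_le_le hs.le (hle n) hn.le, hn⟩⟩
  · intro n q hq x
    let m := max n (N x)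
    have hx : x.1 < (t m).len := lt_of_lt_of_le (hN x) (hmono (le_max_right _ _)).1
    have : u.toFun x = (t m).toFun ⟨x.1, hx⟩ := hcoh _ _ _ _ _
    rw [this]
    exact hq m (le_max_left _ _) _

theorem isSuccLimit_ht {u : SigmaQ} (t : ℕ → SigmaQ) (h1 : ∀ n, t n < u)
    (h2 : ∀ s, s < u → ∃ n, s < t n) : Order.IsSuccLimit (ht u) := by
  refine ⟨?_, ?_⟩
  · intro hm
    exact absurd (ht_lt (h1 0)) hm.not_lt
  · intro β hβ
    obtain ⟨s, hs, hsβ⟩ := exists_ht_eq hβ.lt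
    obtain ⟨n, hn⟩ := h2 s hs
    refine hβ.2 (c := ht (t n)) ?_ (ht_lt (h1 n))
    rw [← hsβ]; exact ht_lt hn

end SigmaQ

/-- One step of the construction. -/
theorem step {f : SigmaQ → Bool} {S : Set SigmaQ} (hS : IsSelected triPartition f S)
    (A : Set SigmaQ) (t : SigmaQ) (r q : ℚ) (htS : t ∈ S) (hr : ∀ x, t.toFun x ≤ r) (hrq : r < q) :
    ∃ (t' : SigmaQ) (r' q' : ℚ), t' ∈ S ∧ (∀ x, t'.toFun x ≤ r') ∧ r' < q' ∧ q' < q ∧ t < t' ∧
      ((∃ s ∈ A ∩ S, t ≤ s ∧ ∃ r'' < q, ∀ x, s.toFun x ≤ r'') → ∃ s ∈ A ∩ S, s < t') := by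
  by_cases hcase : ∃ s ∈ A ∩ S, t ≤ s ∧ ∃ r'' < q, ∀ x, s.toFun x ≤ r''
  · obtain ⟨s, hsA, hts, r'', hr'', hsr⟩ := hcase
    obtain ⟨t', ht', r', hr', hb⟩ := SigmaQ.exists_mem_part s (f s) hsr hr''
    rw [← hS.succ s hsA.2] at ht'
    refine ⟨t', r', (r' + q) / 2, ht'.2, hb, by linarith, by linarith,
      lt_of_le_of_lt hts ht'.1.1, fun _ => ⟨s, hsA, ht'.1.1⟩⟩
  · obtain ⟨t', ht', r', hr', hb⟩ := SigmaQ.exists_mem_part t (f t) hr hrq
    rw [← hS.succ t htS] at ht'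
    exact ⟨t', r', (r' + q) / 2, ht'.2, hb, by linarith, by linarith, ht'.1.1,
      fun h => absurd h hcase⟩

/-- The empty sequence. -/
def SigmaQ.empty : SigmaQ where
  len := 0
  len_lt := (Ordinal.omega_pos 1)
  toFun := fun x => absurd (Set.mem_Iio.1 x.2) not_lt_zero
  strictMono := fun x => absurd (Set.mem_Iio.1 x.2) not_lt_zero
  bdd := ⟨0, by rintro _ ⟨x, rfl⟩; exact absurd (Set.mem_Iio.1 x.2) not_lt_zero⟩

theorem SigmaQ.isMin_empty : IsMin SigmaQ.empty := by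
  intro s hs
  have h0 : (0 : Ordinal) ≤ s.len := zero_le
  exact ⟨h0, fun x hx => absurd (show x < 0 from hx) not_lt_zero⟩

theorem nonspecial_of_selected {f : SigmaQ → Bool} {S : Set SigmaQ}
    (hS : IsSelected triPartition f S) : ¬ IsSpecial S := by
  rintro ⟨A, hA, hSA⟩
  -- states
  let St : Type 1 := {p : SigmaQ × ℚ × ℚ // p.1 ∈ S ∧ (∀ x, p.1.toFun x ≤ p.2.1) ∧ p.2.1 < p.2.2}
  have hstep : ∀ (n : ℕ) (p : St), ∃ p' : St, p'.1.2.2 < p.1.2.2 ∧ p.1.1 < p'.1.1 ∧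
      ((∃ s ∈ A n ∩ S, p.1.1 ≤ s ∧ ∃ r'' < p.1.2.2, ∀ x, s.toFun x ≤ r'') →
        ∃ s ∈ A n ∩ S, s < p'.1.1) := by
    rintro n ⟨⟨t, r, q⟩, h1, h2, h3⟩
    obtain ⟨t', r', q', a1, a2, a3, a4, a5, a6⟩ := step hS (A n) t r q h1 h2 h3
    exact ⟨⟨⟨t', r', q'⟩, a1, a2, a3⟩, a4, a5, a6⟩
  choose nxt hnxt using hstep
  have hinit : SigmaQ.empty ∈ S := hS.root _ SigmaQ.isMin_empty
  let p : ℕ → St := fun n => Nat.rec
    ⟨⟨SigmaQ.empty, 0, 1⟩, hinit, fun x => absurd (show x.1 < 0 from x.2) not_lt_zero, one_pos⟩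
    (fun n p => nxt n p) n
  have hp : ∀ n, p (n + 1) = nxt n (p n) := fun n => rfl
  have hq : ∀ n, (p (n + 1)).1.2.2 < (p n).1.2.2 := fun n => by rw [hp]; exact (hnxt n (p n)).1
  have ht' : ∀ n, (p n).1.1 < (p (n + 1)).1.1 := fun n => by rw [hp]; exact (hnxt n (p n)).2.1
  have hanti : Antitone (fun n => (p n).1.2.2) := antitone_nat_of_succ_le (fun n => (hq n).le)
  have hbound : ∀ m n, m ≤ n → ∀ x, (p n).1.1.toFun x ≤ (p m).1.2.2 := by
    intro m n hmn x
    exact ((p n).2.2.1 x).trans ((p n).2.2.2.le.trans (hanti hmn))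
  obtain ⟨u, hu1, hu2, hu3⟩ := SigmaQ.exists_union (fun n => (p n).1.1) ht' ((p 0).1.2.2)
    (fun n x => hbound 0 n (Nat.zero_le _) x)
  have huS : u ∈ S := by
    refine hS.limit u (SigmaQ.isSuccLimit_ht _ hu1 hu2) ?_
    intro s hs
    obtain ⟨n, hn⟩ := hu2 s hs
    exact hS.lower _ (p n).2.1 s hn.le
  have huA : ∃ n, u ∈ A n := by
    rw [hSA] at huS
    exact Set.mem_iUnion.1 huS
  obtain ⟨n, hn⟩ := huA
  obtain ⟨s, hsA, hs⟩ := (hnxt n (p n)).2.2 ⟨u, ⟨hn, huS⟩, (hu1 n).le, (p (n + 1)).1.2.2, hq n,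
    hu3 (n + 1) _ (fun m hm x => hbound (n + 1) m hm x)⟩
  rw [← hp] at hs
  have hsu : s < u := lt_trans hs (hu1 (n + 1))
  exact hA n hsA.1 hn hsu.ne hsu.le

theorem nice_triPartition : IsNice triPartition := by
  intro f
  exact ⟨sel triPartition f, isSelected_sel _ _, fun S' hS' =>
    isSelected_unique _ _ (isSelected_sel _ _) hS', nonspecial_of_selected (isSelected_sel _ _)⟩

theorem diamond_sigmaQ : Diamond SigmaQ := diamond_of_nice nice_triPartition

end Pool.Agent.H883R3
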