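import Mathlib

/-!
General theory of (set theoretic) trees: heights, immediate successors, successor-partitions,
special and nonstationary sets, the principle diamond on a tree.
-/

namespace Pool.Agent.H883R3

open Ordinal

universe u

/-- A tree order: a partial order in which the set of strict predecessors of every node is
well-ordered. -/
class TreeOrder (T : Type u) [PartialOrder T] : Prop where
  wo : ∀ t : T, IsWellOrder (Set.Iio t) (fun a b => a < b)

variable {T : Type u} [PartialOrder T] [TreeOrder T]

/-- The height of a node: the order type of its set of strict predecessors. -/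
noncomputable def ht (t : T) : Ordinal.{u} :=
  @Ordinal.type (Set.Iio t) (fun a b => a < b) (TreeOrder.wo t)

/-- The immediate successors of a node. -/
def Succs (t : T) : Set T := {s | t < s ∧ ht s = ht t + 1}

/-- A set is special if it is a countable union of antichains. -/
def IsSpecial (X : Set T) : Prop :=
  ∃ A : ℕ → Set T, (∀ n, IsAntichain (fun a b : T => a ≤ b) (A n)) ∧ X = ⋃ n, A n

/-- A set is nonstationary if it carries a regressive function all of whose fibres are special. -/
def IsNonstationary (X : Set T) : Prop :=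
  ∃ f : T → T, (∀ x ∈ X, ¬ IsMin x → f x < x) ∧ ∀ t : T, IsSpecial {x | x ∈ X ∧ f x = t}

/-- The principle diamond on the tree `T`. -/
def Diamond (T : Type u) [PartialOrder T] [TreeOrder T] : Prop :=
  ∃ D : T → Set T, (∀ t, D t ⊆ Set.Iio t) ∧
    ∀ X : Set T, ¬ IsNonstationary {t | X ∩ Set.Iio t = D t}

/-- A successor-partition: for every node `t` a splitting of the set of immediate successors of `t`
into two disjoint pieces `part t false` and `part t true`. -/
structure SuccPartition (T : Type u) [PartialOrder T] [TreeOrder T] where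
  part : T → Bool → Set T
  union_eq : ∀ t, part t false ∪ part t true = Succs t
  disj : ∀ t, Disjoint (part t false) (part t true)

/-- `S` is the subtree `T(Q,f)`: it is downward closed, contains the minimal nodes, the immediate
successors in `S` of a node `t` of `S` are exactly the elements of `Q_t(f t)`, and a node of limit
height all of whose strict predecessors are in `S` is in `S`. -/
structure IsSelected (Q : SuccPartition T) (f : T → Bool) (S : Set T) : Prop where
  lower : ∀ s ∈ S, ∀ t, t ≤ s → t ∈ S
  root : ∀ t, IsMin t → t ∈ S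
  succ : ∀ t ∈ S, Succs t ∩ S = Q.part t (f t)
  limit : ∀ t, Order.IsSuccLimit (ht t) → (∀ s, s < t → s ∈ S) → t ∈ S

/-- A successor-partition is nice if the subtree `T(Q,f)` (which exists and is unique) is
nonspecial for every `f`. -/
def IsNice (Q : SuccPartition T) : Prop :=
  ∀ f : T → Bool, ∃ S : Set T, IsSelected Q f S ∧ (∀ S', IsSelected Q f S' → S' = S) ∧
    ¬ IsSpecial S

/-! ### Basic facts -/

theorem trichotomy {t a b : T} (ha : a < t) (hb : b < t) : a < b ∨ a = b ∨ b < a := by
  have := TreeOrder.wo t
  rcases trichotomous_of (fun x y : Set.Iio t => x < y) ⟨a, ha⟩ ⟨b, hb⟩ with h | h | h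
  · exact Or.inl h
  · exact Or.inr (Or.inl (congrArg Subtype.val h))
  · exact Or.inr (Or.inr h)

theorem ht_eq_typein {s t : T} (h : s < t) :
    ht s = @typein (Set.Iio t) (fun a b => a < b) (TreeOrder.wo t) ⟨s, h⟩ := by
  have := TreeOrder.wo t
  have := TreeOrder.wo s
  rw [← type_subrel]
  unfold ht
  refine RelIso.ordinalType_congr ?_
  refine ⟨⟨fun x => ⟨⟨x.1, lt_trans x.2 h⟩, x.2⟩, fun y => ⟨y.1.1, y.2⟩, ?_, ?_⟩, ?_⟩
  · intro x; rfl
  · intro y; rfl
  · intro a b; exact Iff.rfl

theorem ht_lt {s t : T} (h : s < t) : ht s < ht t := by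
  have := TreeOrder.wo t
  rw [ht_eq_typein h]
  exact typein_lt_type _ _

theorem exists_ht_eq {t : T} {β : Ordinal.{u}} (h : β < ht t) : ∃ s, s < t ∧ ht s = β := by
  have := TreeOrder.wo t
  obtain ⟨a, ha⟩ := typein_surj (fun a b : Set.Iio t => a < b) h
  exact ⟨a.1, a.2, by rw [ht_eq_typein a.2]; exact ha⟩

theorem wf : WellFounded (fun a b : T => a < b) :=
  Subrelation.wf (fun {_ _} h => ht_lt h) (InvImage.wf (ht : T → Ordinal.{u}) Ordinal.lt_wf)

theorem eq_of_ht_eq {t a b : T} (ha : a < t) (hb : b < t) (h : ht a = ht b) : a = b := by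
  rcases trichotomy ha hb with h1 | h1 | h1
  · exact absurd h (ne_of_lt (ht_lt h1))
  · exact h1
  · exact absurd h.symm (ne_of_lt (ht_lt h1))

theorem le_of_ht_le {t a b : T} (ha : a < t) (hb : b < t) (h : ht a ≤ ht b) : a ≤ b := by
  rcases trichotomy ha hb with h1 | h1 | h1
  · exact le_of_lt h1
  · exact le_of_eq h1
  · exact absurd (ht_lt h1) (not_lt.2 h)

/-- If `s' ∈ Succs t`, everything strictly below `s'` is `≤ t`. -/
theorem le_of_lt_succs {t s' u : T} (hs : s' ∈ Succs t) (hu : u < s') : u ≤ t := by
  refine le_of_ht_le hu hs.1 ?_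
  have := ht_lt hu
  rw [hs.2] at this
  exact Order.lt_add_one_iff.1 this

theorem eq_of_mem_succs {t s' u : T} (hs : s' ∈ Succs t) (hu : s' ∈ Succs u) : t = u := by
  refine eq_of_ht_eq hs.1 hu.1 ?_
  have := hs.2.symm.trans hu.2
  exact Order.succ_eq_succ_iff.1 (by simpa [← Order.succ_eq_add_one] using this)

/-- The explicit description of `T(Q,f)`. -/
def sel (Q : SuccPartition T) (f : T → Bool) : Set T :=
  {t | ∀ s s', s' ≤ t → s' ∈ Succs s → s' ∈ Q.part s (f s)}

theorem part_subset (Q : SuccPartition T) (t : T) (b : Bool) : Q.part t b ⊆ Succs t := by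
  rw [← Q.union_eq t]
  cases b
  · exact Set.subset_union_left
  · exact Set.subset_union_right

theorem isSelected_sel (Q : SuccPartition T) (f : T → Bool) : IsSelected Q f (sel Q f) where
  lower := fun s hs t hts u u' hu' hs' => hs u u' (le_trans hu' hts) hs'
  root := by
    intro t ht' s s' h1 h2
    exact absurd (lt_of_lt_of_le h2.1 h1) (fun h => (h.not_ge (ht' h.le)))
  succ := by
    intro t htS
    apply Set.Subset.antisymm
    · rintro s' ⟨h1, h2⟩
      exact h2 t s' le_rfl h1
    · intro s' hs'
      have hs1 : s' ∈ Succs t := part_subset Q t _ hs'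
      refine ⟨hs1, ?_⟩
      intro u u' hu' hu2
      rcases lt_or_eq_of_le hu' with h | h
      · exact htS u u' (le_of_lt_succs hs1 h) hu2
      · subst h
        have : t = u := eq_of_mem_succs hs1 hu2
        subst this
        exact hs'
  limit := by
    intro t hlim hall s s' h1 h2
    rcases lt_or_eq_of_le h1 with h | h
    · exact hall s' h s s' le_rfl h2
    · subst h
      exfalso
      have := hlim.isSuccPrelimit
      have h3 := h2.2
      rw [h3] at this
      exact Order.not_isSuccPrelimit_succ (ht s) this

theorem isSelected_unique (Q : SuccPartition T) (f : T → Bool) {S S' : Set T}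
    (h : IsSelected Q f S) (h' : IsSelected Q f S') : S' = S := by
  have key : ∀ t : T, t ∈ S' ↔ t ∈ S := by
    intro t0
    refine (wf (T := T)).induction (C := fun t => t ∈ S' ↔ t ∈ S) t0 ?_
    · intro t ih
      rcases Ordinal.zero_or_succ_or_isSuccLimit (ht t) with h0 | ⟨β, hβ⟩ | hl
      · have hmin : IsMin t := by
          intro s hs
          rcases lt_or_eq_of_le hs with h1 | h1
          · have := ht_lt h1
            rw [h0] at this
            exact absurd this (not_lt.2 zero_le)
          · exact le_of_eq h1.symm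
        exact ⟨fun _ => h.root t hmin, fun _ => h'.root t hmin⟩
      · obtain ⟨s, hs, hsβ⟩ := exists_ht_eq (t := t) (β := β)
          (by rw [← hβ]; exact Order.lt_succ β)
        have hsucc : t ∈ Succs s := ⟨hs, by rw [hsβ, ← hβ]; try rfl⟩
        constructor
        · intro ht'
          have hs' : s ∈ S' := h'.lower t ht' s hs.le
          have hsS : s ∈ S := (ih s hs).1 hs'
          have h1 : t ∈ Q.part s (f s) := by
            rw [← h'.succ s hs']; exact ⟨hsucc, ht'⟩
          rw [← h.succ s hsS] at h1
          exact h1.2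
        · intro ht'
          have hs' : s ∈ S := h.lower t ht' s hs.le
          have hsS : s ∈ S' := (ih s hs).2 hs'
          have h1 : t ∈ Q.part s (f s) := by
            rw [← h.succ s hs']; exact ⟨hsucc, ht'⟩
          rw [← h'.succ s hsS] at h1
          exact h1.2
      · constructor
        · intro ht'
          exact h.limit t hl (fun s hs => (ih s hs).1 (h'.lower t ht' s hs.le))
        · intro ht'
          exact h'.limit t hl (fun s hs => (ih s hs).2 (h.lower t ht' s hs.le))
  ext t; exact key t

/-! ### Special sets and colourings -/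

omit [TreeOrder T] in
theorem isSpecial_iff {X : Set T} :
    IsSpecial X ↔ ∃ c : T → ℕ, ∀ x ∈ X, ∀ y ∈ X, x < y → c x ≠ c y := by
  classical
  constructor
  · rintro ⟨A, hA, hX⟩
    have hmem : ∀ x ∈ X, ∃ n, x ∈ A n := by
      intro x hx
      rw [hX] at hx
      exact Set.mem_iUnion.1 hx
    refine ⟨fun x => if h : x ∈ X then Classical.choose (hmem x h) else 0, ?_⟩
    intro x hx y hy hxy heq
    simp only [hx, hy, dif_pos] at heq
    have h1 := Classical.choose_spec (hmem x hx)
    have h2 := Classical.choose_spec (hmem y hy)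
    rw [heq] at h1
    exact hA _ h1 h2 hxy.ne hxy.le
  · rintro ⟨c, hc⟩
    refine ⟨fun n => {x | x ∈ X ∧ c x = n}, ?_, ?_⟩
    · intro n x hx y hy hne hle
      exact hc x hx.1 y hy.1 (lt_of_le_of_ne hle hne) (hx.2.trans hy.2.symm)
    · ext x
      simp

omit [TreeOrder T] in
theorem IsSpecial.mono {X Y : Set T} (h : IsSpecial Y) (hXY : X ⊆ Y) : IsSpecial X := by
  rw [isSpecial_iff] at *
  obtain ⟨c, hc⟩ := h
  exact ⟨c, fun x hx y hy => hc x (hXY hx) y (hXY hy)⟩

omit [TreeOrder T] in
theorem IsNonstationary.mono {X Y : Set T} (h : IsNonstationary Y) (hXY : X ⊆ Y) :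
    IsNonstationary X := by
  obtain ⟨f, hf, hs⟩ := h
  exact ⟨f, fun x hx => hf x (hXY hx), fun t => (hs t).mono (fun x hx => ⟨hXY hx.1, hx.2⟩)⟩

/-- Pressing down lemma: a downward closed nonstationary set is special. -/
theorem special_of_lower_nonstationary {S : Set T} (hS : ∀ s ∈ S, ∀ t, t ≤ s → t ∈ S)
    (h : IsNonstationary S) : IsSpecial S := by
  classical
  obtain ⟨F, hF, hsp⟩ := h
  have hd : ∀ t : T, ∃ d : T → ℕ, ∀ x, (x ∈ S ∧ F x = t) → ∀ y, (y ∈ S ∧ F y = t) →
      x < y → d x ≠ d y := by
    intro t
    obtain ⟨c, hc⟩ := isSpecial_iff.1 (hsp t)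
    exact ⟨c, fun x hx y hy => hc x hx y hy⟩
  choose d hd using hd
  let c : T → ℕ := (wf (T := T)).fix (fun x ih =>
    if h : F x < x then Nat.pair (ih (F x) h) (d (F x) x) + 1 else 0)
  have hc : ∀ x, c x = if F x < x then Nat.pair (c (F x)) (d (F x) x) + 1 else 0 := by
    intro x
    have := (wf (T := T)).fix_eq (C := fun _ => ℕ) (fun x ih =>
      if h : F x < x then Nat.pair (ih (F x) h) (d (F x) x) + 1 else 0) x
    rw [show c x = _ from this]
    by_cases h : F x < x
    · simp only [h, dif_pos, if_true]
      rfl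
    · simp only [h, dif_neg, if_false, not_false_eq_true]
  rw [isSpecial_iff]
  refine ⟨c, ?_⟩
  have main : ∀ y : T, y ∈ S → ∀ x ∈ S, x < y → c x ≠ c y := by
    intro y0
    refine (wf (T := T)).induction (C := fun y => y ∈ S → ∀ x ∈ S, x < y → c x ≠ c y) y0 ?_
    · intro y ih hy x hx hxy heq
      have hymin : ¬ IsMin y := fun hm => hxy.not_ge (hm hxy.le)
      have hFy : F y < y := hF y hy hymin
      rw [hc x, hc y, if_pos hFy] at heq
      by_cases hFx : F x < x
      · rw [if_pos hFx] at heq
        have h1 := Nat.pair_eq_pair.1 (Nat.succ_injective heq)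
        have hFxy : F x < y := hFx.trans hxy
        rcases trichotomy hFxy hFy with h2 | h2 | h2
        · exact ih (F y) hFy (hS y hy _ hFy.le) (F x) (hS x hx _ hFx.le) h2 h1.1
        · have h3 := h1.2
          rw [h2] at h3
          exact hd (F y) x ⟨hx, h2⟩ y ⟨hy, rfl⟩ hxy h3
        · exact ih (F x) hFxy (hS x hx _ hFx.le) (F y) (hS y hy _ hFy.le) h2 h1.1.symm
      · rw [if_neg hFx] at heq
        exact absurd heq (by omega)
  intro x hx y hy hxy
  exact main y hy x hx hxy

/-- A nice successor-partition yields diamond. -/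
theorem diamond_of_nice {Q : SuccPartition T} (hQ : IsNice Q) : Diamond T := by
  classical
  refine ⟨fun t => {s | ∃ s', s' ≤ t ∧ s' ∈ Q.part s true}, ?_, ?_⟩
  · rintro t s ⟨s', h1, h2⟩
    exact lt_of_lt_of_le (part_subset Q s true h2).1 h1
  · intro X hns
    let f : T → Bool := fun s => decide (s ∈ X)
    obtain ⟨S, hS, -, hnsp⟩ := hQ f
    apply hnsp
    refine special_of_lower_nonstationary hS.lower (hns.mono ?_)
    intro t htS
    change X ∩ Set.Iio t = _
    ext s
    constructor
    · rintro ⟨hsX, hst⟩
      have hlt : ht s + 1 ≤ ht t := by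
        have := ht_lt hst
        exact Order.add_one_le_of_lt this
      have : ∃ s', s' ≤ t ∧ s' ∈ Succs s := by
        rcases lt_or_eq_of_le hlt with h1 | h1
        · obtain ⟨s', hs't, hs'⟩ := exists_ht_eq h1
          refine ⟨s', hs't.le, ?_, hs'⟩
          rcases trichotomy hst hs't with h2 | h2 | h2
          · exact h2
          · exfalso; rw [h2] at hs'
            exact absurd hs' (ne_of_lt (lt_add_one _))
          · exfalso
            have := ht_lt h2
            rw [hs'] at this
            exact absurd this (not_lt.2 (lt_add_one _).le)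
        · exact ⟨t, le_rfl, hst, h1.symm⟩
      obtain ⟨s', hs't, hs'⟩ := this
      refine ⟨s', hs't, ?_⟩
      have hsS : s ∈ S := hS.lower t htS s hst.le
      have hs'S : s' ∈ S := hS.lower t htS s' hs't
      have h1 : s' ∈ Q.part s (f s) := by
        rw [← hS.succ s hsS]; exact ⟨hs', hs'S⟩
      have h2 : f s = true := by simp [f, hsX]
      rwa [h2] at h1
    · rintro ⟨s', hs't, hs'⟩
      have hsucc := part_subset Q s true hs'
      have hst : s < t := lt_of_lt_of_le hsucc.1 hs't
      refine ⟨?_, hst⟩
      have hsS : s ∈ S := hS.lower t htS s hst.le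
      have hs'S : s' ∈ S := hS.lower t htS s' hs't
      have h1 : s' ∈ Q.part s (f s) := by
        rw [← hS.succ s hsS]; exact ⟨hsucc, hs'S⟩
      by_contra hsX
      have h2 : f s = false := by simp [f, hsX]
      rw [h2] at h1
      exact Set.disjoint_left.1 (Q.disj s) h1 hs'

end Pool.Agent.H883R3
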